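import Pool.Agent.Helper9CH.PowColl
import Pool.Agent.Results.MP_3223b9_lc.CountableFunctions

/-!
# It is consistent that some cardinal between `pc(P)` and `d(P)` is not in the cellular spectrum

It can be forced that `2 ^ κ = κ⁺` holds for a strong limit cardinal `κ > ω` of countable cofinality.
The forcing language is the one of `Pool.Agent.Helper292.ForceCH`: a sentence is represented by the
set of the conditions which force it, with the usual clauses for the connectives.
-/

set_option autoImplicit false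

open Cardinal

namespace Pool.Agent.Results.MP_3223b9_lc.NotATheorem

open Pool.Agent.Helper9CH.PowColl Pool.Agent.R591.CS

/-- (1) Let `X n` be the iterated power sets of `ℕ`, and let `W` have the cardinality of the
successor of `|⋃ n, X n|`. Some forcing notion forces, below every condition, that there are no new
subsets of `⋃ n, X n`, that `2 ^ |X n| ≤ |X (n + 1)|` for all `n`, and that
`2 ^ |⋃ n, X n| ≤ |W|`. (2) This is what the plain forms of the last two sentences say.
(3) If they hold, with `X 0` infinite and `W` at most of the cardinality of the successor of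
`|⋃ n, X n|`, then there are posets `P`, `Q` and a cardinal `κ` with `pc(P) < κ < d(P)`,
`c(Q) ≤ κ` and `c(P × Q) > κ`. -/
theorem result :
    (∃ (X : ℕ → Type) (W : Type), #(X 0) = ℵ₀ ∧ (∀ n, #(X (n + 1)) = 2 ^ #(X n)) ∧
      #W = Order.succ #(Σ n, X n) ∧ ∃ (P : Type) (_ : Preorder P), Nonempty P ∧ ∀ p : P,
        p ∈ NoNewSubsets P (Σ n, X n) ∧
        p ∈ (Pool.Agent.Helper292.ForceCH.fall fun n => PowLe P (X n) (X (n + 1))) ∧
        p ∈ PowLe P (Σ n, X n) W) ∧
    (∀ A B : Type, PlainPow A B ↔ (2 : Cardinal.{0}) ^ #A ≤ #B) ∧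
    (∀ (X : ℕ → Type) (W : Type), Infinite (X 0) → (∀ n, PlainPow (X n) (X (n + 1))) →
      #W ≤ Order.succ #(Σ n, X n) → PlainPow (Σ n, X n) W →
      ∃ (P Q : Type) (_ : PartialOrder P) (_ : PartialOrder Q) (κ : Cardinal.{0}),
        pc P < κ ∧ κ < dens P ∧ cell Q ≤ κ ∧ κ < cell (P × Q)) := by
  refine ⟨exists_forcing, fun A B => plainPow_iff, fun X W h0 h1 hW h2 => ?_⟩
  obtain ⟨g1, g2, g3, g4⟩ := plain h0 h1 hW h2
  obtain ⟨a1, a2, a3, Q, i, a4, a5⟩ := CountableFunctions.result.1 _ g1 g2 g3 g4
  exact ⟨_, Q, inferInstance, i, #(Σ n, X n), a1.trans_lt a2, a3, a4, a5⟩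

end Pool.Agent.Results.MP_3223b9_lc.NotATheorem
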